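import Pool.Agent.H482R3.EB.Cen

set_option autoImplicit false

/-! Project EB, part CEN, task CENZ: trivial centre of the joined group. -/

namespace Pool.Agent.H482R3.EB

open Pool.Agent.H482R3.EA (W inv ev PP xx evF cond1 cond2 cV cW LIdx Syl gOf iW iV letF valS
  Sys St Near InD Adm Act)

theorem t_CENZ (hN : S_ACT2) (hF : S_PHI) (hI : S_INJ) : S_CENZ := by
  intro V Wt hV c hc h ch z hz
  obtain ⟨A⟩ := hN (sysB c h)
  obtain ⟨F⟩ := hF V Wt c
  obtain ⟨X, hX⟩ : ∃ X : PB c → AJ c,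
      ∀ p, X p = F.ι p.1 * gJ c (.inl p.2) * (F.ι p.1)⁻¹ := ⟨_, fun _ => rfl⟩
  have hx : ∀ (l : LnB c) (p : PB c), IB c p l → F.φ l (xB c l p) = X p := by
    intro l p hp
    rw [F.hx l p hp, hX]
  obtain ⟨v, hv1, hvm⟩ := A.val (AJ c) F.φ X hx
  obtain ⟨hinj, hsur⟩ := hI V Wt c hc h A.toAct F v hv1 hvm
  obtain ⟨ω, g, hzω⟩ := hsur z
  -- commutation
  have hE : ∀ (x : AR (cW c)) (v0 : V), v ω * X (g * x, v0) = X (x, v0) * v ω := by
    intro x v0
    have h1 := hz (X (x, v0))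
    have h2 : X (g * x, v0) = F.ι g * X (x, v0) * (F.ι g)⁻¹ := by
      rw [hX, hX]
      simp only [map_mul, mul_inv_rev, mul_assoc]
    rw [hzω] at h1
    rw [h2]
    calc v ω * (F.ι g * X (x, v0) * (F.ι g)⁻¹)
        = v ω * F.ι g * X (x, v0) * (F.ι g)⁻¹ := by simp only [mul_assoc]
      _ = X (x, v0) * (v ω * F.ι g) * (F.ι g)⁻¹ := by rw [h1]
      _ = X (x, v0) * v ω := by group
  have hact : ∀ (ω : A.Ω) (x : AR (cW c)) (v0 : V),
      v (A.act ω (.inl x : LnB c) (gR (cV c) v0 : AR (cV c))) = v ω * X (x, v0) := by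
    intro ω x v0
    have h1 := hvm ω (.inl x : LnB c) (gR (cV c) v0 : AR (cV c))
    rw [h1, hX]
    congr 1
    exact F.hB x v0
  by_cases hω : ω = A.one
  · -- `z = ι g`
    obtain ⟨v0⟩ := hV
    have h1 := hE 1 v0
    rw [hω, hv1, one_mul, mul_one, mul_one] at h1
    have h2 : A.act A.one (.inl g : LnB c) (gR (cV c) v0 : AR (cV c)) =
        A.act A.one (.inl 1 : LnB c) (gR (cV c) v0 : AR (cV c)) := by
      apply hinj
      rw [hact, hact, h1]
    have hst : ∀ x : AR (cW c),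
        A.st (A.act A.one (.inl x : LnB c) (gR (cV c) v0 : AR (cV c))) =
          (St.pt ((x, v0) : PB c) : St (sysB c h)) := by
      intro x
      have h3 := A.st_pt A.one (.inl x : LnB c) ((x, v0) : PB c) 1 rfl one_ne_zero (by
        rw [A.st_one]
        exact fun h => h)
      rw [← h3]
      congr 2
    have h4 : (St.pt ((g, v0) : PB c) : St (sysB c h)) = St.pt ((1, v0) : PB c) := by
      rw [← hst g, ← hst 1, h2]
    have h5 : ((g, v0) : PB c) = ((1, v0) : PB c) := by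
      injection h4
    have h6 : g = 1 := congrArg Prod.fst h5
    rw [hzω, hω, hv1, h6, map_one, mul_one]
  · exfalso
    obtain ⟨x, v0, hfar, hnear⟩ := ch (A.fst ω) (A.st ω) g
    obtain ⟨ω', hω', hval⟩ := A.pre ω ((x, v0) : PB c) hω hfar
    have h1 : v ω' = X (x, v0) * v ω := hval (AJ c) F.φ X hx v hv1 hvm
    have h2 : ω' = A.act ω (.inl (g * x) : LnB c) (gR (cV c) v0 : AR (cV c)) := by
      apply hinj
      rw [h1, hact, hE]
    have h3 := A.fst_pt ω (.inl (g * x) : LnB c) ((g * x, v0) : PB c) 1 rfl one_ne_zero hnear hω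
    have h4 : A.fst (A.act ω (.inl (g * x) : LnB c) (gR (cV c) v0 : AR (cV c))) = A.fst ω := by
      rw [← h3]
      congr 2
    rw [← h2, hω'] at h4
    rw [← h4] at hfar
    apply hfar
    obtain ⟨m, hm⟩ := h.P0 ((x, v0) : PB c)
    exact ⟨m, hm, hm⟩

end Pool.Agent.H482R3.EB
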